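import Pool.Agent.H51.AO.VLF

/-!
Project AO, block P, module OKV: names which are forced to be sequences have values which are
sequences.
-/

set_option maxRecDepth 8000
set_option linter.unusedVariables false
set_option linter.unusedSectionVars false
set_option synthInstance.maxSize 100000

namespace AO.BP

open SW

/-- OKV -/
theorem ao_okv (vlf : VLFStmt) (dfo : DFOStmt) : OKVStmt := by
  intro M _ _ F G hmr hri hG σ τ g m hσ hτ hg hok
  have hdir : ∀ p q, G p → G q → ∃ r, G r ∧ Sub p r ∧ Sub q r := by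
    intro p q hp hq
    obtain ⟨r, hr, h1, h2⟩ := hG.dir p q hp hq
    exact ⟨r, hr, (hri r p).1 h1, (hri r q).1 h2⟩
  have htr := (vlf M F G hri hG).tr
  have key : ∀ (ρ : M), Sub ρ (prod om F.P) →
      (∀ n : ℕ, ∀ p, E p F.P → Sub g p → ∃ r, E r F.P ∧ Sub p r ∧
        ∃ s : List ℕ, s.length = n + 1 ∧ Fl F.P ρ r s) →
      (∀ p, E p F.P → Sub g p → ∀ k v v' : ℕ, Fo F.P ρ p (nu (Nat.pair k v)) →
        Fo F.P ρ p (nu (Nat.pair k v')) → v = v') → ∃ a : ℕ → ℕ, vl G ρ = gc a := by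
    intro ρ hρ h1 h2
    have h3 : ∀ n : ℕ, ∃ v : ℕ, ∃ r, G r ∧ Sub g r ∧ Fo F.P ρ r (nu (Nat.pair n v)) := by
      intro n
      have hC := (dfo M F.P hmr).fl ρ (n + 1)
      obtain ⟨r, hr, hgr, s, hs, hfl⟩ := (genF hG).meetB
        (fun r : M => ∃ s : List ℕ, s.length = n + 1 ∧ Fl F.P ρ r s) hC g hg (by
          intro p hp hpg
          obtain ⟨r, hr, hpr, s, hs⟩ := h1 n p hp ((hri p g).1 hpg)
          exact ⟨r, hr, (hri r p).2 hpr, s, hs⟩)
      have hn : n < s.length := by omega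
      exact ⟨s[n], r, hr, (hri r g).1 hgr, hfl n _ (List.getElem?_eq_getElem hn)⟩
    choose a ha using h3
    refine ⟨a, ?_⟩
    funext j
    have e : j = Nat.pair (Nat.unpair j).1 (Nat.unpair j).2 := (Nat.pair_unpair j).symm
    generalize (Nat.unpair j).1 = k at e
    generalize (Nat.unpair j).2 = v at e
    subst e
    rw [Bool.eq_iff_iff, vlf_gc, htr ρ hρ]
    obtain ⟨r, hr, hgr, hfo⟩ := ha k
    constructor
    · rintro ⟨p, hp, hp'⟩
      obtain ⟨q, hq, hpq, hrq⟩ := hdir p r hp hr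
      exact h2 q (hG.sub q hq) (fun z hz => hrq z (hgr z hz)) k (a k) v (vlf_up hfo hrq)
        (vlf_up hp' hpq)
    · intro e
      rw [e] at hfo
      exact ⟨r, hr, hfo⟩
  obtain ⟨a, ha⟩ := key σ hσ (by
    intro n p hp hgp
    obtain ⟨r, s, u, hr, hpr, hs, hu, h1, h2⟩ := hok.tot p hp hgp (n + 1)
    exact ⟨r, hr, hpr, s, hs, h1⟩) hok.ons
  obtain ⟨t, ht⟩ := key τ hτ (by
    intro n p hp hgp
    obtain ⟨r, s, u, hr, hpr, hs, hu, h1, h2⟩ := hok.tot p hp hgp n
    exact ⟨r, hr, hpr, u, hu, h2⟩) hok.ont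
  exact ⟨a, t, ha, ht⟩

end AO.BP
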