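import Pool.Agent.H51.AO.VLF

/-!
Project AO, block P, module TRU: the truth lemma for the relation between sequences.
-/

set_option maxRecDepth 8000
set_option linter.unusedVariables false
set_option linter.unusedSectionVars false
set_option synthInstance.maxSize 100000

namespace AO.BP

open SW

section
variable {M : Type} [SetStr M] [ZF M]

/-- `p` forces that the list with the code `x` is an initial segment of the sequence -/
def Fx (P σ p x : M) : Prop := ∀ z, RR (RP 2) x z (nu 0) → Fo P σ p z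

theorem fx_iff {P σ p : M} {s : List ℕ} : Fx P σ p (nu (lc s)) ↔ Fl P σ p s := by
  constructor
  · intro h k v hkv
    exact h _ ⟨![lc s, Nat.pair k v, 0, 0, 0], ⟨s, k, v, rfl, hkv, rfl⟩, rfl, rfl, rfl⟩
  · rintro h z ⟨t, ⟨s', k, v, e0, hkv, e1⟩, h0, h1, -⟩
    have hs : s = s' := by
      have := CUR.nu_inj h0
      rw [e0] at this
      exact Encodable.encode_injective this
    subst hs
    rw [h1, e1]
    exact h k v hkv

end

/-- TRU -/
theorem ao_tru (gcf : GCFStmt) (vlf : VLFStmt) : TRUStmt := by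
  intro M _ _ F G hmr hri hG σ τ a t m hσ hτ hva hvt hadm hat
  have hdir : ∀ p q, G p → G q → ∃ r, G r ∧ Sub p r ∧ Sub q r := by
    intro p q hp hq
    obtain ⟨r, hr, h1, h2⟩ := hG.dir p q hp hq
    exact ⟨r, hr, (hri r p).1 h1, (hri r q).1 h2⟩
  have hV := vlf M F G hri hG
  have i0 : ∀ {n : ℕ} {t s u : (Fin n → M) → M} [DfT t] [DfT s] [DfT u],
      Df (fun v => RR (RP 0) (t v) (s v) (u v)) := fun {n t s u} ht hs hu =>
    (RR_df hmr.std (hmr.has 0)).comp3 ht hs hu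
  have i1 : ∀ {n : ℕ} {t s u : (Fin n → M) → M} [DfT t] [DfT s] [DfT u],
      Df (fun v => RR (RP 1) (t v) (s v) (u v)) := fun {n t s u} ht hs hu =>
    (RR_df hmr.std (hmr.has 1)).comp3 ht hs hu
  have i2 : ∀ {n : ℕ} {t s u : (Fin n → M) → M} [DfT t] [DfT s] [DfT u],
      Df (fun v => RR (RP 2) (t v) (s v) (u v)) := fun {n t s u} ht hs hu =>
    (RR_df hmr.std (hmr.has 2)).comp3 ht hs hu
  have i5 : ∀ {n : ℕ} {t s u : (Fin n → M) → M} [DfT t] [DfT s] [DfT u],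
      Df (fun v => RR (RP 5) (t v) (s v) (u v)) := fun {n t s u} ht hs hu =>
    (RR_df hmr.std (hmr.has 5)).comp3 ht hs hu
  have hFx : Df (fun v : Fin 4 → M => Fx (v 0) (v 1) (v 2) (v 3)) := by
    unfold Fx
    infer_instance
  have ix : ∀ {n : ℕ} {t s u x : (Fin n → M) → M} [DfT t] [DfT s] [DfT u] [DfT x],
      Df (fun v => Fx (t v) (s v) (u v) (x v)) := fun {n t s u x} ht hs hu hx =>
    hFx.comp4 (R := fun a b c d => Fx a b c d) ht hs hu hx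
  -- classes which do not meet the generic filter
  have key : ∀ K : M → Prop, Cl K → (∀ p, G p → ¬ K p) →
      ∃ g, G g ∧ ∀ p, E p F.P → Sub g p → ¬ K p := by
    intro K hK hn
    have hC : Cl (fun q : M => K q ∨ ∀ p, E p F.P → Sub q p → ¬ K p) := by
      have ik : ∀ {n : ℕ} {t : (Fin n → M) → M} [DfT t], Df (fun v => K (t v)) :=
        fun {n t} ht => hK.comp1 ht
      infer_instance
    obtain ⟨g, hg, h⟩ := (genF hG).meetC _ hC (by
      intro p hp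
      by_cases h : ∃ q, E q F.P ∧ Sub p q ∧ K q
      · obtain ⟨q, hq, hpq, hk⟩ := h
        exact ⟨q, hq, (hri q p).2 hpq, Or.inl hk⟩
      · refine ⟨p, hp, (hri p p).2 fun z hz => hz, Or.inr ?_⟩
        intro q hq hpq hk
        exact h ⟨q, hq, hpq, hk⟩)
    rcases h with h | h
    · exact absurd h (hn g hg)
    · exact ⟨g, hg, h⟩
  -- totality
  obtain ⟨g1, hg1, h1⟩ := key (fun p : M => ∃ n : M, E n om ∧ ¬ ∃ r, E r F.P ∧ Sub p r ∧
    ∃ x y : M, RR (RP 1) x n (nu 0) ∧ RR (RP 1) y (suc n) (nu 0) ∧ Fx F.P σ r x ∧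
      Fx F.P τ r y) inferInstance (by
    rintro p hp ⟨n, hn, h⟩
    obtain ⟨k, rfl⟩ := hmr.std n hn
    obtain ⟨q, hq, hpq, hfl⟩ := hV.seg σ a k p hσ hva hp
    obtain ⟨r, hr, hqr, hfl'⟩ := hV.seg τ t (k + 1) q hτ hvt hq
    refine h ⟨r, hG.sub r hr, fun z hz => hqr z (hpq z hz), nu (lc (ini a k)),
      nu (lc (ini t (k + 1))), ⟨![lc (ini a k), k, 0, 0, 0], ⟨ini a k, rfl, ?_⟩, rfl, rfl, rfl⟩,
      ⟨![lc (ini t (k + 1)), k + 1, 0, 0, 0], ⟨ini t (k + 1), rfl, ?_⟩, rfl, rfl, rfl⟩,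
      fx_iff.2 fun i v hiv => vlf_up (hfl i v hiv) hqr, fx_iff.2 hfl'⟩
    · show k = _
      rw [gcf.len]
    · show k + 1 = _
      rw [gcf.len])
  -- single values
  have hone : ∀ (ρ : M) (b : ℕ → ℕ), Sub ρ (prod om F.P) → vl G ρ = gc b →
      ∃ g, G g ∧ ∀ p, E p F.P → Sub g p → ¬ ∃ z z' x y y' : M, RR (RP 0) z x y ∧
        RR (RP 0) z' x y' ∧ y ≠ y' ∧ Fo F.P ρ p z ∧ Fo F.P ρ p z' := by
    intro ρ b hρ hvb
    refine key (fun p : M => ∃ z z' x y y' : M, RR (RP 0) z x y ∧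
        RR (RP 0) z' x y' ∧ y ≠ y' ∧ Fo F.P ρ p z ∧ Fo F.P ρ p z') inferInstance ?_
    rintro p hp ⟨z, z', x, y, y', ⟨t1, ht1, e0, e1, e2⟩, ⟨t2, ht2, e0', e1', e2'⟩, hne, hf, hf'⟩
    have ht1' : t1 0 = Nat.pair (t1 1) (t1 2) := ht1
    have ht2' : t2 0 = Nat.pair (t2 1) (t2 2) := ht2
    have h3 : b (t1 1) = t1 2 := by
      rw [← vlf_gc, ← ht1', ← hvb, hV.tr ρ hρ, ← e0]
      exact ⟨p, hp, hf⟩
    have h4 : b (t2 1) = t2 2 := by
      rw [← vlf_gc, ← ht2', ← hvb, hV.tr ρ hρ, ← e0']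
      exact ⟨p, hp, hf'⟩
    have h5 : t1 1 = t2 1 := CUR.nu_inj (e1.symm.trans e1')
    apply hne
    rw [e2, e2', ← h3, ← h4, h5]
  have hone' : ∀ (ρ p : M), (¬ ∃ z z' x y y' : M, RR (RP 0) z x y ∧
        RR (RP 0) z' x y' ∧ y ≠ y' ∧ Fo F.P ρ p z ∧ Fo F.P ρ p z') → ∀ k v v' : ℕ,
      Fo F.P ρ p (nu (Nat.pair k v)) → Fo F.P ρ p (nu (Nat.pair k v')) → v = v' := by
    intro ρ p hn k v v' hf hf'
    by_contra hne
    exact hn ⟨_, _, nu k, nu v, nu v', ⟨![Nat.pair k v, k, v, 0, 0], rfl, rfl, rfl, rfl⟩,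
      ⟨![Nat.pair k v', k, v', 0, 0], rfl, rfl, rfl, rfl⟩, fun e => hne (CUR.nu_inj e), hf, hf'⟩
  obtain ⟨g2, hg2, h2⟩ := hone σ a hσ hva
  obtain ⟨g3, hg3, h3⟩ := hone τ t hτ hvt
  -- good pairs
  obtain ⟨g4, hg4, h4⟩ := key (fun p : M => ∃ x y : M, RR (RP 5) y x (nu m) ∧ Fx F.P σ p x ∧
      Fx F.P τ p y) inferInstance (by
    rintro p hp ⟨x, y, ⟨w, ⟨u, s, e0, e1, hl, hm, hbad⟩, f0, f1, f2⟩, hx, hy⟩
    rw [f1, e1, fx_iff] at hx
    rw [f0, e0, fx_iff] at hy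
    have hs := hV.gs σ a s p hσ hva hp hx
    have hu := hV.gs τ t u p hτ hvt hp hy
    have hm' : m ≤ s.length := by
      rw [CUR.nu_inj f2]; exact hm
    apply hbad
    constructor
    · rw [hu]
      exact (gcf.spl t).1 hadm _
    · rw [hu, hl, gcf.lv t _ _ (Nat.lt_succ_self _), hs, gcf.len]
      exact hat _ hm')
  obtain ⟨g5, hg5, h15, h25⟩ := hdir g1 g2 hg1 hg2
  obtain ⟨g6, hg6, h36, h46⟩ := hdir g3 g4 hg3 hg4
  obtain ⟨g, hg, h5, h6⟩ := hdir g5 g6 hg5 hg6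
  refine ⟨g, hg, ?_, ?_, ?_, ?_⟩
  · intro p hp hgp n
    have h := h1 p hp fun z hz => hgp z (h5 z (h15 z hz))
    by_contra hcon
    apply h
    refine ⟨nu n, CUR.nu_mem_om n, ?_⟩
    rintro ⟨r, hr, hpr, x, y, ⟨w, ⟨s, e0, e1⟩, f0, f1, -⟩, ⟨w', ⟨u, e0', e1'⟩, f0', f1', -⟩, hx, hy⟩
    rw [f0, e0, fx_iff] at hx
    rw [f0', e0', fx_iff] at hy
    have hn : n = s.length := by
      rw [← e1]; exact CUR.nu_inj f1
    have hn' : n + 1 = u.length := by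
      rw [← e1']; exact CUR.nu_inj (m := n + 1) f1'
    exact hcon ⟨r, s, u, hr, hpr, hn.symm, hn'.symm, hx, hy⟩
  · intro p hp hgp
    exact hone' σ p (h2 p hp fun z hz => hgp z (h5 z (h25 z hz)))
  · intro p hp hgp
    exact hone' τ p (h3 p hp fun z hz => hgp z (h6 z (h36 z hz)))
  · intro p hp hgp s u hl hm hs hu
    by_contra hbad
    exact h4 p hp (fun z hz => hgp z (h6 z (h46 z hz))) ⟨nu (lc s), nu (lc u),
      ⟨![lc u, lc s, m, 0, 0], ⟨u, s, rfl, rfl, hl, hm, hbad⟩, rfl, rfl, rfl⟩,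
      fx_iff.2 hs, fx_iff.2 hu⟩

end AO.BP
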