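import Pool.Agent.H36.AO.PStmts
import Pool.Agent.H13.MA.Lib

/-!
Project AO, block P, module VLF: values of names.
-/

set_option maxRecDepth 8000
set_option linter.unusedVariables false
set_option linter.unusedSectionVars false
set_option synthInstance.maxSize 100000

namespace AO.BP

open SW

section
variable {M : Type} [SetStr M] [ZF M] {F : FPoset M} {G : M → Prop}

theorem vlf_up {P σ p q j : M} (h : Fo P σ p j) (hpq : Sub p q) : Fo P σ q j := by
  intro q' hq' hqq'
  exact h q' hq' fun z hz => hqq' z (hpq z hz)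

theorem vlf_true {σ : M} {j : ℕ} : vl G σ j = true ↔ ∃ q, G q ∧ E (opair (nu j) q) σ := by
  classical
  unfold vl
  rw [decide_eq_true_iff]

theorem vlf_gc {a : ℕ → ℕ} {k v : ℕ} : gc a (Nat.pair k v) = true ↔ a k = v := by
  unfold gc
  rw [decide_eq_true_iff, Nat.unpair_pair]

theorem vlf_mem {σ q j X : M} (h : Sub σ (prod om X)) (hq : E (opair j q) σ) : E q X := by
  exact (mem_prod.1 (h _ hq)).2

theorem vlf_fo {P σ q j : M} (hq : E (opair j q) σ) : Fo P σ q j := by
  intro q' hq' hqq'
  exact ⟨q', hq', fun z hz => hz, q, hq, hqq'⟩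

/-- VLF -/
theorem ao_vlf (gcf : GCFStmt) : VLFStmt := by
  intro M _ _ F G hri hG
  have hup : ∀ p q, G p → E q F.P → Sub q p → G q := by
    intro p q hp hq hqp
    exact hG.up p q hp hq ((hri p q).2 hqp)
  have hdir : ∀ p q, G p → G q → ∃ r, G r ∧ Sub p r ∧ Sub q r := by
    intro p q hp hq
    obtain ⟨r, hr, h1, h2⟩ := hG.dir p q hp hq
    exact ⟨r, hr, (hri r p).1 h1, (hri r q).1 h2⟩
  have htr : ∀ σ, Sub σ (prod om F.P) → ∀ j : ℕ, vl G σ j = true ↔
      ∃ p, G p ∧ Fo F.P σ p (nu j) := by
    intro σ hσ j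
    rw [vlf_true]
    constructor
    · rintro ⟨q, hq, hqσ⟩
      exact ⟨q, hq, vlf_fo hqσ⟩
    · rintro ⟨p, hp, hfo⟩
      have hC : Cl (fun r : M => ∃ q', E (opair (nu j) q') σ ∧ Sub q' r) := inferInstance
      obtain ⟨r, hr, -, q', hq', hq'r⟩ := (genF hG).meetB
        (fun r : M => ∃ q', E (opair (nu j) q') σ ∧ Sub q' r) hC p hp (by
          intro q hq hqp
          obtain ⟨r, hr, hqr, q', h1, h2⟩ := hfo q hq ((hri q p).1 hqp)
          exact ⟨r, hr, (hri r q).2 hqr, q', h1, h2⟩)
      exact ⟨q', hup r q' hr (vlf_mem hσ hq') hq'r, hq'⟩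
  refine ⟨fun σ p q j h _ hpq => vlf_up h hpq, htr, ?_, ?_, ?_⟩
  · intro σ a n q hσ hva hq
    induction n with
    | zero =>
      refine ⟨q, hq, fun z hz => hz, ?_⟩
      intro k v hkv
      simp [ini] at hkv
    | succ n ih =>
      obtain ⟨p, hp, hqp, hfl⟩ := ih
      have h1 : vl G σ (Nat.pair n (a n)) = true := by
        rw [hva, vlf_gc]
      obtain ⟨p', hp', hfo⟩ := (htr σ hσ _).1 h1
      obtain ⟨r, hr, hpr, hpr'⟩ := hdir p p' hp hp'
      refine ⟨r, hr, fun z hz => hpr z (hqp z hz), ?_⟩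
      intro k v hkv
      rw [gcf.succ, List.getElem?_append] at hkv
      split_ifs at hkv with hk
      · exact vlf_up (hfl k v hkv) hpr
      · rw [gcf.len] at hk hkv
        rw [List.getElem?_singleton] at hkv
        split_ifs at hkv with hk'
        have hkn : k = n := by omega
        subst hkn
        rw [Option.some.injEq] at hkv
        subst hkv
        exact vlf_up hfo hpr'
  · intro X σ a n q hX hσ hva hq hqX
    have hσ' : Sub σ (prod om F.P) := by
      intro z hz
      obtain ⟨x, y, hx, hy, e⟩ := mem_prod'.1 (hσ z hz)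
      exact mem_prod'.2 ⟨x, y, hx, (mem_PD.1 hy).1, e⟩
    induction n with
    | zero =>
      refine ⟨q, hq, hqX, fun z hz => hz, ?_⟩
      intro k v hkv
      simp [ini] at hkv
    | succ n ih =>
      obtain ⟨p, hp, hpX, hqp, hfl⟩ := ih
      have h1 : vl G σ (Nat.pair n (a n)) = true := by
        rw [hva, vlf_gc]
      obtain ⟨p', hp', hpσ⟩ := vlf_true.1 h1
      have hpX' : E p' (PD F.P X) := vlf_mem hσ hpσ
      obtain ⟨r, hr, hpr, hpr'⟩ := hdir p p' hp hp'
      have hrP := hG.sub r hr
      have hrX : E (rst r X) (PD F.P X) := hX.rs r hrP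
      have h2 : Sub p (rst r X) := hX.up p r hpX hrP hpr
      have h3 : Sub p' (rst r X) := hX.up p' r hpX' hrP hpr'
      refine ⟨rst r X, hup r _ hr (mem_PD.1 hrX).1 (hX.le r), hrX,
        fun z hz => h2 z (hqp z hz), ?_⟩
      intro k v hkv
      rw [gcf.succ, List.getElem?_append] at hkv
      split_ifs at hkv with hk
      · exact vlf_up (hfl k v hkv) h2
      · rw [gcf.len] at hk hkv
        rw [List.getElem?_singleton] at hkv
        split_ifs at hkv with hk'
        have hkn : k = n := by omega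
        subst hkn
        rw [Option.some.injEq] at hkv
        subst hkv
        exact vlf_up (vlf_fo hpσ) h3
  · intro σ a s p hσ hva hp hfl
    refine List.ext_getElem? fun k => ?_
    by_cases hk : k < s.length
    · rw [gcf.get a _ k hk, List.getElem?_eq_getElem hk]
      have h1 : vl G σ (Nat.pair k s[k]) = true :=
        (htr σ hσ _).2 ⟨p, hp, hfl k _ (List.getElem?_eq_getElem hk)⟩
      rw [hva, vlf_gc] at h1
      rw [h1]
    · rw [List.getElem?_eq_none (by omega), List.getElem?_eq_none (by rw [gcf.len]; omega)]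

end

end AO.BP
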