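import Pool.Agent.H94.AO.QStmts

/-!
Project AO, module EMX: facts about the embedding of a model in an extension.
-/

set_option maxRecDepth 8000
set_option linter.unusedVariables false
set_option linter.unusedSectionVars false
set_option synthInstance.maxSize 100000

namespace AO

open SW

section
variable {M : Type} [SetStr M] [ZF M] {F : FPoset M} {G : M → Prop}

/-- pairs in the image of the embedding -/
theorem emx_pair (hG : Gen F G) [ZF (Ext F G)] {z : M} {a b : Ext F G}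
    (h : emb F G z = opair a b) : ∃ x y, a = emb F G x ∧ b = emb F G y ∧ z = opair x y := by
  have ef := embF hG
  have tf := traF hG
  have h1 : E (upair a b) (emb F G z) := by rw [h]; unfold opair; rw [mem_upair]; exact Or.inr rfl
  obtain ⟨u, hu, hue⟩ := ef.trans _ _ h1
  have h2 : E a (emb F G u) := by rw [← hue, mem_upair]; exact Or.inl rfl
  have h3 : E b (emb F G u) := by rw [← hue, mem_upair]; exact Or.inr rfl
  obtain ⟨x, -, hx⟩ := ef.trans _ _ h2
  obtain ⟨y, -, hy⟩ := ef.trans _ _ h3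
  refine ⟨x, y, hx, hy, ?_⟩
  rw [← ef.inj, tf.opair, ← hx, ← hy, h]

theorem emx_app (hG : Gen F G) [ZF (Ext F G)] (f x : M) :
    emb F G (app f x) = app (emb F G f) (emb F G x) := by
  have ef := embF hG
  have tf := traF hG
  have key : ∀ w', E (opair (emb F G x) w') (emb F G f) →
      ∃ w, w' = emb F G w ∧ E (opair x w) f := by
    intro w' hw
    obtain ⟨z, hz, hze⟩ := ef.trans _ _ hw
    obtain ⟨x', y, h1, h2, h3⟩ := emx_pair hG hze.symm
    have : x = x' := (ef.inj _ _).1 h1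
    subst this
    rw [h3] at hz
    exact ⟨y, h2, hz⟩
  have key2 : ∀ w, E (opair x w) f → E (opair (emb F G x) (emb F G w)) (emb F G f) := by
    intro w hw
    rw [← tf.opair, ef.mem]
    exact hw
  unfold app
  rw [eq_the_iff]
  by_cases h : ∃! w, E (opair x w) f
  · left
    have h1 := the_spec h
    refine ⟨key2 _ h1, fun z hz => ?_⟩
    obtain ⟨w, rfl, hw⟩ := key z hz
    rw [h.unique hw h1]
  · right
    constructor
    · rintro ⟨z, hz, hu⟩
      obtain ⟨w, rfl, hw⟩ := key z hz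
      apply h
      exact ⟨w, hw, fun y hy => (ef.inj _ _).1 (hu _ (key2 y hy))⟩
    · have : (the fun w => E (opair x w) f) = emp := by
        unfold the
        rw [dif_neg h]
      rw [this, tf.emp]

theorem emx_fst (hG : Gen F G) [ZF (Ext F G)] (z : M) :
    emb F G (CC.fst z) = CC.fst (emb F G z) := by
  have ef := embF hG
  have tf := traF hG
  by_cases h : ∃ a b, z = opair a b
  · obtain ⟨a, b, rfl⟩ := h
    rw [CC.fst_opair, tf.opair, CC.fst_opair]
  · have h1 : CC.fst z = emp := by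
      unfold CC.fst the
      rw [dif_neg]
      rintro ⟨a, ⟨b, hab⟩, -⟩
      exact h ⟨a, b, hab⟩
    have h2 : CC.fst (emb F G z) = emp := by
      unfold CC.fst the
      rw [dif_neg]
      rintro ⟨a, ⟨b, hab⟩, -⟩
      obtain ⟨x, y, -, -, hxy⟩ := emx_pair hG hab
      exact h ⟨x, y, hxy⟩
    rw [h1, h2, tf.emp]

theorem emx_snd (hG : Gen F G) [ZF (Ext F G)] (z : M) :
    emb F G (CC.snd z) = CC.snd (emb F G z) := by
  have ef := embF hG
  have tf := traF hG
  by_cases h : ∃ a b, z = opair a b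
  · obtain ⟨a, b, rfl⟩ := h
    rw [CC.snd_opair, tf.opair, CC.snd_opair]
  · have h1 : CC.snd z = emp := by
      unfold CC.snd the
      rw [dif_neg]
      rintro ⟨a, ⟨b, hab⟩, -⟩
      exact h ⟨b, a, hab⟩
    have h2 : CC.snd (emb F G z) = emp := by
      unfold CC.snd the
      rw [dif_neg]
      rintro ⟨a, ⟨b, hab⟩, -⟩
      obtain ⟨x, y, -, -, hxy⟩ := emx_pair hG hab
      exact h ⟨x, y, hxy⟩
    rw [h1, h2, tf.emp]

end

theorem emx : EMXStmt := by
  intro M _ _ F G hG _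
  have ef := embF hG
  have tf := traF hG
  have happ := emx_app (F := F) (G := G) hG
  have hnb : ∀ a b, emb F G (nb a b) = nb (emb F G a) (emb F G b) := by
    intro a b
    refine ext fun z => ?_
    rw [mem_nb]
    constructor
    · intro hz
      obtain ⟨n, hn, rfl⟩ := ef.trans _ _ hz
      obtain ⟨h1, h2⟩ := mem_nb.1 hn
      rw [ef.mem, ← tf.opair, ef.mem]
      exact ⟨h1, h2⟩
    · rintro ⟨h1, h2⟩
      obtain ⟨n, hn, rfl⟩ := ef.trans _ _ h1
      rw [← tf.opair, ef.mem] at h2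
      rw [ef.mem, mem_nb]
      exact ⟨hn, h2⟩
  refine ⟨happ, emx_fst hG, emx_snd hG, ?_, hnb, ?_, ?_, ?_⟩
  · intro a b
    refine ext fun z => ?_
    rw [mem_inter]
    constructor
    · intro hz
      obtain ⟨n, hn, rfl⟩ := ef.trans _ _ hz
      rw [ef.mem, ef.mem]
      exact mem_inter.1 hn
    · rintro ⟨h1, h2⟩
      obtain ⟨n, hn, rfl⟩ := ef.trans _ _ h1
      rw [ef.mem] at h2
      rw [ef.mem, mem_inter]
      exact ⟨hn, h2⟩
  · rintro a b ⟨f, hf⟩
    refine ⟨emb F G f, fun y hy => ?_⟩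
    obtain ⟨y, hy1, rfl⟩ := ef.trans _ _ hy
    obtain ⟨x, hx, rfl⟩ := hf y hy1
    exact ⟨emb F G x, (ef.mem _ _).2 hx, happ f x⟩
  · rintro a ⟨f, h1, h2⟩
    refine ⟨emb F G f, fun y hy => ?_, ?_⟩
    · obtain ⟨y, hy1, rfl⟩ := ef.trans _ _ hy
      obtain ⟨n, hn, hyn⟩ := h1 y hy1
      refine ⟨emb F G n, ?_, ?_⟩
      · rw [← tf.om, ef.mem]
        exact hn
      · rw [← tf.opair, ef.mem]
        exact hyn
    · intro y y' n hy hy' hn h3 h4
      obtain ⟨y, hy1, rfl⟩ := ef.trans _ _ hy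
      obtain ⟨y', hy1', rfl⟩ := ef.trans _ _ hy'
      rw [← tf.om] at hn
      obtain ⟨n, hn1, rfl⟩ := ef.trans _ _ hn
      rw [← tf.opair, ef.mem] at h3 h4
      rw [h2 y y' n hy1 hy1' hn1 h3 h4]
  · rintro a b ⟨f, h1, h2⟩
    refine ⟨emb F G f, ?_, ?_⟩
    · rintro d hd ⟨n, hn⟩
      obtain ⟨d, hd1, rfl⟩ := ef.trans _ _ hd
      rw [← hnb] at hn
      obtain ⟨n, hn1, rfl⟩ := ef.trans _ _ hn
      rw [← happ, ef.mem]
      exact h1 d hd1 ⟨n, hn1⟩
    · intro d d' n hd hd' hne hn hn'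
      obtain ⟨d, hd1, rfl⟩ := ef.trans _ _ hd
      obtain ⟨d', hd1', rfl⟩ := ef.trans _ _ hd'
      rw [← hnb] at hn hn'
      obtain ⟨n, hn1, rfl⟩ := ef.trans _ _ hn
      rw [ef.mem] at hn'
      rw [← happ, ← happ, ef.mem, ef.mem]
      exact h2 d d' n hd1 hd1' (fun h => hne (by rw [h])) hn1 hn'

end AO
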