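import Pool.Agent.H94.AO.QStmts
import Pool.Agent.H94.CC.CHAIN

/-!
Project AO, module CHQ: the union of an increasing sequence of conditions with empty levels at
all stages.
-/

set_option maxRecDepth 8000
set_option linter.unusedVariables false
set_option linter.unusedSectionVars false
set_option synthInstance.maxSize 100000

namespace AO

open SW

section
variable {M : Type} [SetStr M] [ZF M]

theorem chq_fst_UP {p0 j z : M} {g : M → M} (hg : Fn1 g) :
    E z (CC.fst (CC.UP p0 j g)) ↔ E z (CC.fst p0) ∨ ∃ i, E i j ∧ E z (CC.fst (g i)) :=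
  CC.mem_fst_UP hg

theorem chq_snd_UP {p0 j z : M} {g : M → M} (hg : Fn1 g) :
    E z (CC.snd (CC.UP p0 j g)) ↔ E z (CC.snd p0) ∨ ∃ i, E i j ∧ E z (CC.snd (g i)) :=
  CC.mem_snd_UP hg

/-- the members of the second component of a condition -/
theorem chq_shape {w l p z : M} (hl : Ord l) (hp : E p (QP w l)) (hz : E z (CC.snd p)) :
    ∃ d n, z = opair d n ∧ E n d ∧ E d (CC.fst p) := ((QP_iff hl).1 hp).2.2.1 z hz

/-- the union of a coherent sequence -/
theorem chq_coh {w l p0 j : M} {g : M → M} (hl : Ord l) (hg : Fn1 g) (hj : Ord j)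
    (hp : E p0 (QP w l)) (h1 : ∀ i, E i j → E (g i) (QP w l) ∧ QL (g i) p0)
    (h2 : ∀ i i', E i j → E i' j → E i i' → QL (g i') (g i)) :
    QL (CC.UP p0 j g) p0 ∧ ∀ i, E i j → QL (CC.UP p0 j g) (g i) := by
  constructor
  · refine ⟨fun z hz => (chq_fst_UP hg).2 (Or.inl hz), ext fun z => ?_⟩
    rw [mem_res]
    constructor
    · intro hz
      obtain ⟨d, n, rfl, h3, h4⟩ := chq_shape hl hp hz
      exact ⟨(chq_snd_UP hg).2 (Or.inl hz), d, n, h4, rfl⟩
    · rintro ⟨hz, d, n, h4, rfl⟩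
      rcases (chq_snd_UP hg).1 hz with hz | ⟨i, hi, hz⟩
      · exact hz
      · rw [(h1 i hi).2.2, mem_res]
        exact ⟨hz, d, n, h4, rfl⟩
  · intro i hi
    refine ⟨fun z hz => (chq_fst_UP hg).2 (Or.inr ⟨i, hi, hz⟩), ext fun z => ?_⟩
    rw [mem_res]
    constructor
    · intro hz
      obtain ⟨d, n, rfl, h3, h4⟩ := chq_shape hl (h1 i hi).1 hz
      exact ⟨(chq_snd_UP hg).2 (Or.inr ⟨i, hi, hz⟩), d, n, h4, rfl⟩
    · rintro ⟨hz, d, n, h4, rfl⟩
      rcases (chq_snd_UP hg).1 hz with hz | ⟨i', hi', hz⟩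
      · exact QL_snd (h1 i hi).2 _ hz
      · rcases (hj.mem hi).tri (hj.mem hi') with h | h | h
        · rw [(h2 i i' hi hi' h).2, mem_res]
          exact ⟨hz, d, n, h4, rfl⟩
        · subst h
          exact hz
        · exact QL_snd (h2 i' i hi' hi h) _ hz

/-- `BL p` extends what `p` extends -/
theorem chq_BL {p q : M} (h : QL p q) : QL (BL p) q := by
  refine ⟨fun z hz => ?_, ?_⟩
  · rw [fst_BL, mem_suc]
    exact Or.inl (h.1 z hz)
  · rw [snd_BL]
    exact h.2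

theorem chq_bun {d x y : M} (hd : Ord d) (hx : E x d) (hy : E y d) : E (bun x y) d := by
  rcases (hd.mem hx).tri (hd.mem hy) with h | h | h
  · have : bun x y = y := ext fun z => by
      rw [mem_bun]
      exact ⟨fun hz => hz.elim (fun hz => (hd.mem hy).trans h hz) id, Or.inr⟩
    rw [this]
    exact hy
  · subst h
    have : bun x x = x := ext fun z => by
      rw [mem_bun]
      exact ⟨fun hz => hz.elim id id, Or.inr⟩
    rw [this]
    exact hy
  · have : bun x y = x := ext fun z => by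
      rw [mem_bun]
      exact ⟨fun hz => hz.elim id (fun hz => (hd.mem hx).trans h hz), Or.inl⟩
    rw [this]
    exact hx

/-- `f` is a witness for `Fre t b` -/
def chq_W (t b f : M) : Prop := (∀ d, E d b → (∃ n, E n (nb t d)) → E (app f d) d) ∧
  ∀ d d' n, E d b → E d' b → d ≠ d' → E n (nb t d) → E n (nb t d') →
    E n (app f d) ∨ E n (app f d')

theorem chq_W_df : Cl3 (fun t b f : M => chq_W t b f) := by unfold chq_W; infer_instance

instance {n : ℕ} {t s u : (Fin n → M) → M} [ht : DfT t] [hs : DfT s] [hu : DfT u] :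
    Df (fun v => chq_W (t v) (s v) (u v)) := chq_W_df.comp3 ht hs hu

/-- the value of the new witness at `d` -/
def chq_V (p0 θ f0 h d y : M) (g : M → M) : Prop := (E d (CC.fst p0) ∧ y = app f0 d) ∨
  (¬ E d (CC.fst p0) ∧ ∃ i, E i θ ∧ E d (CC.fst (g i)) ∧ (∀ i', E i' i → ¬ E d (CC.fst (g i'))) ∧
    y = bun (app (app h i) d) (CC.fst (CC.UP p0 i g)))

theorem chq_V_df (p0 θ f0 h : M) {g : M → M} (hg : Fn1 g) :
    Cl2 (fun d y : M => chq_V p0 θ f0 h d y g) := by
  have i1 : ∀ {n : ℕ} {t : (Fin n → M) → M} [DfT t], DfT (fun v => g (t v)) :=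
    fun {n t} ht => DfT.comp1 hg ht
  unfold chq_V
  infer_instance

end

theorem chq (hchs : CC.CHSStmt) (hrgb : RGBStmt) : CHQStmt := by
  intro M _ _ w l p0 θ g hR hg hθ hp0 hstep
  have hl := hR.ord
  have hF := hrgb M w l hR
  have hθo : Ord θ := hl.mem hθ
  have i1 : ∀ {n : ℕ} {t : (Fin n → M) → M} [DfT t], DfT (fun v => g (t v)) :=
    fun {n t} ht => DfT.comp1 hg ht
  have hK : ∀ k, E k θ → QL (g k) p0 ∧ ∀ i, E i k → QL (g k) (g i) := by
    refine mem_induction (C := fun k => E k θ → QL (g k) p0 ∧ ∀ i, E i k → QL (g k) (g i))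
      (by infer_instance) ?_
    intro k ih hk
    have hko := hθo.mem hk
    have hc := chq_coh hl hg hko hp0
      (fun i hi => ⟨(hstep i (hθo.trans hk hi)).1, (ih i hi (hθo.trans hk hi)).1⟩)
      (fun i i' hi hi' hii => (ih i' hi' (hθo.trans hk hi')).2 i hii)
    exact ⟨QL_trans (hstep k hk).2 (chq_BL hc.1),
      fun i hi => QL_trans (hstep k hk).2 (chq_BL (hc.2 i hi))⟩
  have hc := chq_coh hl hg hθo hp0 (fun i hi => ⟨(hstep i hi).1, (hK i hi).1⟩)
    (fun i i' hi hi' hii => (hK i' hi').2 i hii)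
  refine ⟨?_, hc.1, hc.2⟩
  -- neighbourhoods
  have hnb0 : ∀ d, E d (CC.fst p0) → nb (CC.snd (CC.UP p0 θ g)) d = nb (CC.snd p0) d :=
    fun d hd => (QL_nb hc.1 hd).symm
  have hnbi : ∀ i d, E i θ → E d (CC.fst (g i)) →
      nb (CC.snd (CC.UP p0 θ g)) d = nb (CC.snd (g i)) d :=
    fun i d hi hd => (QL_nb (hc.2 i hi) hd).symm
  have hT0 := ((QP_iff hl).1 hp0).2.2
  have hTi : ∀ i, E i θ → TC w (CC.fst (g i)) (CC.snd (g i)) := fun i hi =>
    ((QP_iff hl).1 (hstep i hi).1).2.2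
  -- every member of the height is in `fst p0` or in a first stage
  have hstage : ∀ d, E d (CC.fst (CC.UP p0 θ g)) → ¬ E d (CC.fst p0) →
      ∃ i, E i θ ∧ E d (CC.fst (g i)) ∧ ∀ i', E i' i → ¬ E d (CC.fst (g i')) := by
    intro d hd hd0
    obtain ⟨i, hi, hdi⟩ := ((chq_fst_UP hg).1 hd).resolve_left hd0
    obtain ⟨i, ⟨hi, hdi⟩, hmin⟩ := mem_min (C := fun i : M => E i θ ∧ E d (CC.fst (g i)))
      (by infer_instance) ⟨i, hi, hdi⟩
    exact ⟨i, hi, hdi, fun i' hi' h => hmin i' hi' ⟨hθo.trans hi hi', h⟩⟩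
  rw [QP_iff hl]
  refine ⟨CC.UP_pair _ _ _, ?_, ?_⟩
  · have e : CC.fst (CC.UP p0 θ g) = bun (CC.fst p0) (sUn (img θ (fun i => CC.fst (g i)))) := by
      unfold CC.UP
      rw [CC.fst_opair]
    rw [e]
    exact hF.bun _ _ ((QP_iff hl).1 hp0).2.1 (hF.sUn θ (fun i => CC.fst (g i))
      (by infer_instance) hθ fun i hi => ((QP_iff hl).1 (hstep i hi).1).2.1)
  refine ⟨?_, ?_, ?_, ?_, ?_⟩
  · intro z hz
    rcases (chq_snd_UP hg).1 hz with hz | ⟨i, hi, hz⟩
    · obtain ⟨d, n, rfl, h3, h4⟩ := hT0.1 z hz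
      exact ⟨d, n, rfl, h3, (chq_fst_UP hg).2 (Or.inl h4)⟩
    · obtain ⟨d, n, rfl, h3, h4⟩ := (hTi i hi).1 z hz
      exact ⟨d, n, rfl, h3, (chq_fst_UP hg).2 (Or.inr ⟨i, hi, h4⟩)⟩
  · intro d γ hd hγ
    rcases (chq_fst_UP hg).1 hd with hd | ⟨i, hi, hd⟩
    · rw [hnb0 d hd]
      exact hT0.2.1 d γ hd hγ
    · rw [hnbi i d hi hd]
      exact (hTi i hi).2.1 d γ hd hγ
  · intro d hd
    rcases (chq_fst_UP hg).1 hd with hd | ⟨i, hi, hd⟩
    · rw [hnb0 d hd]
      exact hT0.2.2.1 d hd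
    · rw [hnbi i d hi hd]
      exact (hTi i hi).2.2.1 d hd
  · intro d hd
    rcases (chq_fst_UP hg).1 hd with hd | ⟨i, hi, hd⟩
    · rw [hnb0 d hd]
      exact hT0.2.2.2.1 d hd
    · rw [hnbi i d hi hd]
      exact (hTi i hi).2.2.2.1 d hd
  -- freeness
  obtain ⟨f0, hf01, hf02⟩ := hT0.2.2.2.2
  obtain ⟨h, hh⟩ := hchs M θ (fun i f => chq_W (CC.snd (g i)) (CC.fst (g i)) f)
    (by infer_instance) (fun i hi => (hTi i hi).2.2.2.2)
  obtain ⟨f, hf⟩ := hchs M (CC.fst (CC.UP p0 θ g)) (fun d y => chq_V p0 θ f0 h d y g)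
    (chq_V_df p0 θ f0 h hg) (by
      intro d hd
      by_cases hd0 : E d (CC.fst p0)
      · exact ⟨_, Or.inl ⟨hd0, rfl⟩⟩
      · obtain ⟨i, hi, hdi, hmin⟩ := hstage d hd hd0
        exact ⟨_, Or.inr ⟨hd0, i, hi, hdi, hmin, rfl⟩⟩)
  -- ordinals
  have hfp0 : Ord (CC.fst p0) := hl.mem ((QP_iff hl).1 hp0).2.1
  have hfi : ∀ i, E i θ → Ord (CC.fst (g i)) := fun i hi =>
    hl.mem ((QP_iff hl).1 (hstep i hi).1).2.1
  have hbi : ∀ i, E i θ → E (CC.fst (CC.UP p0 i g)) (CC.fst (g i)) := by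
    intro i hi
    have := (hstep i hi).2.1
    rw [fst_BL] at this
    exact this _ (mem_suc.2 (Or.inr rfl))
  have hbo : ∀ i, E i θ → Ord (CC.fst (CC.UP p0 i g)) := fun i hi => (hfi i hi).mem (hbi i hi)
  have hbn : ∀ i n, E i θ → ¬ E n (nb (CC.snd (g i)) (CC.fst (CC.UP p0 i g))) := by
    intro i n hi hn
    have h1 := QL_nb (hstep i hi).2 (d := CC.fst (CC.UP p0 i g))
      (by rw [fst_BL]; exact mem_suc.2 (Or.inr rfl))
    rw [← h1, snd_BL] at hn
    have h2 := (mem_nb.1 hn).2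
    rcases (chq_snd_UP hg).1 h2 with h3 | ⟨i', hi', h3⟩
    · have h4 := (TC_sub hT0 h3).2
      exact not_mem_self _ ((chq_fst_UP hg).2 (Or.inl h4))
    · have h4 := (TC_sub (hTi i' (hθo.trans hi hi')) h3).2
      exact not_mem_self (CC.fst (CC.UP p0 i g)) ((chq_fst_UP hg).2 (Or.inr ⟨i', hi', h4⟩))
  have hval0 : ∀ d, E d (CC.fst p0) → app f d = app f0 d := by
    intro d hd
    have h1 := hf d ((chq_fst_UP hg).2 (Or.inl hd))
    rcases h1 with ⟨_, h1⟩ | ⟨h1, _⟩
    · exact h1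
    · exact absurd hd h1
  have hval : ∀ d, E d (CC.fst (CC.UP p0 θ g)) → ¬ E d (CC.fst p0) → ∃ i, E i θ ∧
      E d (CC.fst (g i)) ∧ (∀ i', E i' i → ¬ E d (CC.fst (g i'))) ∧
      app f d = bun (app (app h i) d) (CC.fst (CC.UP p0 i g)) := by
    intro d hd hd0
    rcases hf d hd with ⟨h1, _⟩ | ⟨_, h1⟩
    · exact absurd h1 hd0
    · exact h1
  refine ⟨f, ?_, ?_⟩
  · rintro d hd ⟨n, hn⟩
    by_cases hd0 : E d (CC.fst p0)
    · rw [hval0 d hd0]
      rw [hnb0 d hd0] at hn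
      exact hf01 d hd0 ⟨n, hn⟩
    · obtain ⟨i, hi, hdi, hmin, hfd⟩ := hval d hd hd0
      rw [hfd]
      rw [hnbi i d hi hdi] at hn
      have hdo : Ord d := (hfi i hi).mem hdi
      refine chq_bun hdo ((hh i hi).1 d hdi ⟨n, hn⟩) ?_
      rcases (hbo i hi).tri hdo with h1 | h1 | h1
      · exact h1
      · rw [← h1] at hn
        exact absurd hn (hbn i n hi)
      · rcases (chq_fst_UP hg).1 h1 with h2 | ⟨i', hi', h2⟩
        · exact absurd h2 hd0
        · exact absurd h2 (hmin i' hi')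
  · intro d d' n hd hd' hne hn hn'
    -- the case that `d` is below the stage of `d'`
    have key : ∀ d d', E d' (CC.fst (CC.UP p0 θ g)) → ¬ E d' (CC.fst p0) →
        E n (nb (CC.snd (CC.UP p0 θ g)) d) →
        (∀ i, E i θ → E d' (CC.fst (g i)) → (∀ i', E i' i → ¬ E d' (CC.fst (g i'))) →
          E d (CC.fst (CC.UP p0 i g))) → E n (app f d') := by
      intro d d' hd' hd0' hn hs
      obtain ⟨i, hi, hdi, hmin, hfd⟩ := hval d' hd' hd0'
      rw [hfd, mem_bun]
      exact Or.inr ((hbo i hi).trans (hs i hi hdi hmin) (mem_nb.1 hn).1)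
    by_cases hd0 : E d (CC.fst p0)
    · by_cases hd0' : E d' (CC.fst p0)
      · rw [hval0 d hd0, hval0 d' hd0']
        rw [hnb0 d hd0] at hn
        rw [hnb0 d' hd0'] at hn'
        exact hf02 d d' n hd0 hd0' hne hn hn'
      · exact Or.inr (key d d' hd' hd0' hn fun i hi _ _ => (chq_fst_UP hg).2 (Or.inl hd0))
    · by_cases hd0' : E d' (CC.fst p0)
      · exact Or.inl (key d' d hd hd0 hn' fun i hi _ _ => (chq_fst_UP hg).2 (Or.inl hd0'))
      · obtain ⟨i, hi, hdi, hmin, hfd⟩ := hval d hd hd0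
        obtain ⟨i', hi', hdi', hmin', hfd'⟩ := hval d' hd' hd0'
        rcases (hθo.mem hi).tri (hθo.mem hi') with h1 | h1 | h1
        · right
          rw [hfd', mem_bun]
          exact Or.inr ((hbo i' hi').trans ((chq_fst_UP hg).2 (Or.inr ⟨i, h1, hdi⟩))
            (mem_nb.1 hn).1)
        · subst h1
          rw [hnbi i d hi hdi] at hn
          rw [hnbi i d' hi hdi'] at hn'
          rcases (hh i hi).2 d d' n hdi hdi' hne hn hn' with h2 | h2
          · left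
            rw [hfd, mem_bun]
            exact Or.inl h2
          · right
            rw [hfd', mem_bun]
            exact Or.inl h2
        · left
          rw [hfd, mem_bun]
          exact Or.inr ((hbo i hi).trans ((chq_fst_UP hg).2 (Or.inr ⟨i', h1, hdi'⟩))
            (mem_nb.1 hn').1)

end AO
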