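import Pool.Agent.H98.AO.BStmts
import Pool.Agent.H74.AO.HStmts
import Pool.Agent.H13.MA.Real
import Pool.Agent.H78.CUR.NU

/-!
Project AO, module HAN: measurable sets of triples of real numbers give analytic sets in the model.
-/

set_option maxRecDepth 8000
set_option linter.unusedVariables false
set_option linter.unusedSectionVars false
set_option synthInstance.maxSize 100000

namespace AO

open SW

section
variable {N : Type} [SetStr N] [ZF N]

theorem han_om : IsOmega (om : N) := by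
  have hsuc : ∀ s y : N, (∀ t, E t s ↔ E t y ∨ t = y) → s = suc y := fun s y h =>
    ext fun t => by rw [h, mem_suc]
  refine ⟨⟨⟨emp, not_mem_emp, emp_mem_om⟩, fun y hy => ⟨suc y, fun t => mem_suc,
    suc_mem_om hy⟩⟩, fun z hz n hn => ?_⟩
  refine mem_om.1 hn z ⟨?_, fun y hy => ?_⟩
  · obtain ⟨e, he, hez⟩ := hz.1
    rw [← eq_emp he]; exact hez
  · obtain ⟨s, hs, hsz⟩ := hz.2 y hy
    rw [← hsuc s y hs]; exact hsz

/-- the real number of a cut is unique -/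
theorem han_uni {a : N} {x y : ℝ} (hx : CUR.IsCutOf a x) (hy : CUR.IsCutOf a y) : x = y := by
  by_contra hne
  rcases lt_or_gt_of_ne hne with h | h
  · obtain ⟨q, h1, h2⟩ := exists_rat_btwn h
    obtain ⟨j, rfl⟩ := CUR.qq_surj q
    exact absurd ((hx.2 j).1 ((hy.2 j).2 h2)) (not_lt.2 h1.le)
  · obtain ⟨q, h1, h2⟩ := exists_rat_btwn h
    obtain ⟨j, rfl⟩ := CUR.qq_surj q
    exact absurd ((hy.2 j).1 ((hx.2 j).2 h2)) (not_lt.2 h1.le)

/-- the cut of a real number is unique -/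
theorem han_uni2 (c : CUR.Codes N) {a b : N} {x : ℝ} (ha : CUR.IsCutOf a x)
    (hb : CUR.IsCutOf b x) : a = b := by
  refine ext fun z => ?_
  constructor
  · intro hz
    obtain ⟨j, rfl⟩ := c.std z (ha.1 z hz)
    exact (hb.2 j).2 ((ha.2 j).1 hz)
  · intro hz
    obtain ⟨j, rfl⟩ := c.std z (hb.1 z hz)
    exact (ha.2 j).2 ((hb.2 j).1 hz)

/-- cuts of rational numbers -/
theorem han_rat (c : CUR.Codes N) (l : ℕ) : ∃ a : N, CUR.IsCutOf a (CUR.qq l : ℝ) := by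
  obtain ⟨a, ha⟩ := sep_ex (inferInstance : Cl (fun j : N => E (opair j (nu l)) c.lt)) om
  refine ⟨a, fun z hz => ((ha z).1 hz).1, fun j => ?_⟩
  rw [ha]
  constructor
  · rintro ⟨_, h⟩
    exact_mod_cast (c.hlt j l).1 h
  · intro h
    exact ⟨CUR.nu_mem_om j, (c.hlt j l).2 (by exact_mod_cast h)⟩

/-- `Btw` in terms of real numbers -/
theorem han_btw (c : CUR.Codes N) {L : N} (hL : IsLe L) {a b d : N} {x y z : ℝ}
    (ha : CUR.IsCutOf a x) (hb : CUR.IsCutOf b y) (hd : CUR.IsCutOf d z) :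
    Btw L a b d ↔ x < y ∧ y < z := by
  unfold Btw
  rw [hL a b x y ha hb, hL b d y z hb hd]
  constructor
  · rintro ⟨h1, h2, h3, h4⟩
    refine ⟨lt_of_le_of_ne h1 fun h => h2 ?_, lt_of_le_of_ne h3 fun h => h4 ?_⟩
    · subst h
      exact han_uni2 c ha hb
    · subst h
      exact han_uni2 c hb hd
  · rintro ⟨h1, h2⟩
    refine ⟨h1.le, fun h => ?_, h2.le, fun h => ?_⟩
    · subst h
      exact h1.ne (han_uni ha hb)
    · subst h
      exact h2.ne (han_uni hb hd)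

/-- internal functions on the natural numbers are functions -/
theorem han_fun (c : CUR.Codes N) {u' : N} (hfu : AO.IsFunction u' om om) :
    ∃ u : ℕ → ℕ, ∀ k v, PairIn (nu k) (nu v) u' ↔ u k = v := by
  have hex : ∀ k : ℕ, ∃ v : ℕ, PairIn (nu k) (nu v) u' ∧
      ∀ y', PairIn (nu k) y' u' → y' = nu v := by
    intro k
    obtain ⟨y, hy, hyu⟩ := hfu.2 (nu k) (CUR.nu_mem_om k)
    have hy2 := pairIn_iff.1 hy
    obtain ⟨p, q, hp', hq, hpq⟩ := hfu.1 _ hy2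
    rw [isOP_iff, opair_inj] at hpq
    obtain ⟨rfl, rfl⟩ := hpq
    obtain ⟨v, rfl⟩ := c.std _ hq
    exact ⟨v, hy, hyu⟩
  choose u hu1 hu2 using hex
  refine ⟨u, fun k v => ⟨fun h => (CUR.nu_inj (hu2 k _ h)).symm, ?_⟩⟩
  rintro rfl
  exact hu1 k

end

theorem han (hbx : HBXStmt) (hcn : HCNStmt) (hks : HKSStmt) (std : STDStmt) : HANStmt := by
  intro D hDm
  obtain ⟨B, hB⟩ := hbx D hDm
  obtain ⟨R, hR⟩ := hcn D B hB
  refine ⟨R, ?_⟩
  intro N _ _ hW hRN c L hL m hm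
  obtain ⟨C, hC1, hC2⟩ := hR N hW hRN c
  obtain ⟨hk3, hk4⟩ := hks N c
  have hKx : ∀ a : N, E a (CUR.KS c) → ∃ x, CUR.IsCutOf a x := fun a ha => by
    obtain ⟨h1, x, h2⟩ := (hk4 a).1 ha
    exact ⟨x, (hk3 a x).2 ⟨h1, h2⟩⟩
  have hxK : ∀ (a : N) x, CUR.IsCutOf a x → E a (CUR.KS c) := fun a x ha =>
    (hk4 a).2 ⟨((hk3 a x).1 ha).1, x, ((hk3 a x).1 ha).2⟩
  have hpq : ∀ (x y z u : N), (∃ p q, IsOP p x y ∧ IsOP q p z ∧ PairIn q u C) ↔
      PairIn (opair (opair x y) z) u C := by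
    intro x y z u
    constructor
    · rintro ⟨p, q, h1, h2, h3⟩
      rw [isOP_iff] at h1 h2
      subst h1 h2
      exact h3
    · intro h
      exact ⟨_, _, isOP_iff.2 rfl, isOP_iff.2 rfl, h⟩
  have htri : ∀ (a b d : N) (x : Fin 3 → ℝ), CUR.IsCutOf a (x 0) → CUR.IsCutOf b (x 1) →
      CUR.IsCutOf d (x 2) → (Trp a b d m ↔ x ∈ D) := by
    intro a b d x ha hb hd
    rw [trp_iff, hm]
    constructor
    · rintro ⟨a', b', d', x', ha', hb', hd', he, hx⟩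
      rw [opair_inj, opair_inj] at he
      obtain ⟨⟨rfl, rfl⟩, rfl⟩ := he
      have : x = x' := by
        funext i
        fin_cases i
        · exact han_uni ha ha'
        · exact han_uni hb hb'
        · exact han_uni hd hd'
      rw [this]
      exact hx
    · intro hx
      exact ⟨a, b, d, x, ha, hb, hd, rfl, hx⟩
  refine ⟨?_, om, C, han_om, ?_, ?_⟩
  · intro t ht
    obtain ⟨a, b, d, x, ha, hb, hd, rfl, _⟩ := (hm t).1 ht
    exact ⟨a, b, d, opair a b, hxK a _ ha, hxK b _ hb, hxK d _ hd, isOP_iff.2 rfl,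
      isOP_iff.2 rfl⟩
  · intro a b d ha hb hd
    obtain ⟨x, ha⟩ := hKx a ha
    obtain ⟨y, hb⟩ := hKx b hb
    obtain ⟨z, hd⟩ := hKx d hd
    rw [htri a b d ![x, y, z] ha hb hd, hC2 a b d ![x, y, z] ha hb hd]
    constructor
    · rintro ⟨u', h1, h2⟩
      exact ⟨u', _, _, h1, isOP_iff.2 rfl, isOP_iff.2 rfl, h2⟩
    · rintro ⟨u', p, q, h1, h2, h3, h4⟩
      exact ⟨u', h1, (hpq a b d u').1 ⟨p, q, h2, h3, h4⟩⟩
  · intro a b d u' ha hb hd hfu hno
    obtain ⟨x, ha⟩ := hKx a ha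
    obtain ⟨y, hb⟩ := hKx b hb
    obtain ⟨z, hd⟩ := hKx d hd
    obtain ⟨u, hu⟩ := han_fun c hfu
    rw [hpq, hC1 a b d u' ![x, y, z] u ha hb hd hfu hu] at hno
    push Not at hno
    obtain ⟨n, hn1, hn2⟩ := hno
    obtain ⟨k0, hk0⟩ := B.fin n
    obtain ⟨l0, hl0⟩ := han_rat c (B.lo n 0)
    obtain ⟨l1, hl1⟩ := han_rat c (B.lo n 1)
    obtain ⟨l2, hl2⟩ := han_rat c (B.lo n 2)
    obtain ⟨r0, hr0⟩ := han_rat c (B.hi n 0)
    obtain ⟨r1, hr1⟩ := han_rat c (B.hi n 1)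
    obtain ⟨r2, hr2⟩ := han_rat c (B.hi n 2)
    refine ⟨l0, r0, l1, r1, l2, r2, nu k0, hxK _ _ hl0, hxK _ _ hr0, hxK _ _ hl1, hxK _ _ hr1,
      hxK _ _ hl2, hxK _ _ hr2, CUR.nu_mem_om k0, (han_btw c hL hl0 ha hr0).2 (hn1 0),
      (han_btw c hL hl1 hb hr1).2 (hn1 1), (han_btw c hL hl2 hd hr2).2 (hn1 2), ?_⟩
    intro a' b' d' v' ha' hb' hd' hfv h1 h2 h3 h4 h5
    obtain ⟨x', ha'⟩ := hKx a' ha'
    obtain ⟨y', hb'⟩ := hKx b' hb'
    obtain ⟨z', hd'⟩ := hKx d' hd'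
    obtain ⟨v, hv⟩ := han_fun c hfv
    rw [hpq, hC1 a' b' d' v' ![x', y', z'] v ha' hb' hd' hfv hv] at h5
    apply h5 n
    refine ⟨fun i => ?_, fun k j hkj => ?_⟩
    · fin_cases i
      · exact (han_btw c hL hl0 ha' hr0).1 h1
      · exact (han_btw c hL hl1 hb' hr1).1 h2
      · exact (han_btw c hL hl2 hd' hr2).1 h3
    · have h6 := h4 (nu k) (nu j) (CUR.nu_lt (hk0 k j hkj))
      rw [← hv, ← h6, hu]
      exact hn2 k j hkj

end AO
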