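import Pool.Agent.H98.AO.BStmts
import Pool.Agent.H74.AO.HStmts
import Pool.Agent.H13.MA.Real
import Pool.Agent.H78.CUR.NU

/-!
Project AO, module HCN: the internal closed set given by a list of boxes, and its projection.
-/

set_option maxRecDepth 8000
set_option linter.unusedVariables false
set_option linter.unusedSectionVars false
set_option synthInstance.maxSize 100000

namespace AO

open SW

section
variable {N : Type} [SetStr N] [ZF N]

/-- `a` is above `l` and below `h`, in terms of cuts; `o` is the order of the rationals -/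
def hcn_iv (o a l h : N) : Prop := E l a ∧ ∃ j, E j om ∧ E (opair j h) o ∧ ¬ E j a

theorem hcn_iv_df : Df (fun v : Fin 4 → N => hcn_iv (v 0) (v 1) (v 2) (v 3)) := by
  unfold hcn_iv; infer_instance

instance {n : ℕ} {t s u x : (Fin n → N) → N} [ht : DfT t] [hs : DfT s] [hu : DfT u]
    [hx : DfT x] : Df (fun v => hcn_iv (t v) (s v) (u v) (x v)) :=
  hcn_iv_df.comp4 (R := fun a b c d => hcn_iv a b c d) ht hs hu hx

/-- the box with number `n` contains the point -/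
def hcn_in (a0 a1 a2 o a b d u n : N) : Prop :=
  (∃ l h l' h', E l om ∧ E h om ∧ E l' om ∧ E h' om ∧
    E (opair n (opair l (opair h (opair l' h')))) a0 ∧ hcn_iv o a l h ∧ hcn_iv o b l' h') ∧
  (∃ l h, E l om ∧ E h om ∧ E (opair n (opair l (opair h (opair emp emp)))) a1 ∧
    hcn_iv o d l h) ∧
  ∀ k v, E k om → E v om → E (opair n (opair k (opair v (opair emp emp)))) a2 →
    E (opair k v) u

theorem hcn_in_df (a0 a1 a2 o : N) : Cl (fun q : N => ∃ a b d u : N,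
    q = opair (opair (opair a b) d) u ∧ ∀ n, E n om → ¬ hcn_in a0 a1 a2 o a b d u n) := by
  unfold hcn_in; infer_instance

theorem hcn_iv_iff (c : CUR.Codes N) {a : N} {x : ℝ} (ha : CUR.IsCutOf a x) (l h : ℕ) :
    hcn_iv c.lt a (nu l) (nu h) ↔ (CUR.qq l : ℝ) < x ∧ x < (CUR.qq h : ℝ) := by
  unfold hcn_iv
  rw [ha.2 l]
  refine and_congr_right fun _ => ?_
  constructor
  · rintro ⟨j, hj, h1, h2⟩
    obtain ⟨j, rfl⟩ := c.std j hj
    have h1' : CUR.qq j < CUR.qq h := (c.hlt j h).1 h1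
    rw [show E (CUR.nu j) a ↔ _ from ha.2 j, not_lt] at h2
    exact lt_of_le_of_lt h2 (by exact_mod_cast h1')
  · intro hx
    obtain ⟨q, h1, h2⟩ := exists_rat_btwn hx
    obtain ⟨j, rfl⟩ := CUR.qq_surj q
    refine ⟨nu j, CUR.nu_mem_om j, (c.hlt j h).2 (by exact_mod_cast h2), ?_⟩
    rw [show E (CUR.nu j) a ↔ _ from ha.2 j, not_lt]
    exact h1.le

/-- the codes of the boxes -/
def hcnR (B : Bxs) (i : ℕ) : Set (Fin 5 → ℕ) :=
  if i = 0 then {t | t 1 = B.lo (t 0) 0 ∧ t 2 = B.hi (t 0) 0 ∧ t 3 = B.lo (t 0) 1 ∧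
    t 4 = B.hi (t 0) 1}
  else if i = 1 then {t | t 1 = B.lo (t 0) 2 ∧ t 2 = B.hi (t 0) 2 ∧ t 3 = 0 ∧ t 4 = 0}
  else {t | B.u (t 0) (t 1) (t 2) ∧ t 3 = 0 ∧ t 4 = 0}

theorem hcn_has {R : Set (Fin 5 → ℕ)} {a : N}
    (h : ∀ t : Fin 5 → ℕ, E (CUR.tupv 4 (fun i => nu (t i))) a ↔ t ∈ R) (i j k l m : ℕ) :
    E (opair (nu i : N) (opair (nu j) (opair (nu k) (opair (nu l) (nu m))))) a ↔
      ![i, j, k, l, m] ∈ R := h ![i, j, k, l, m]

theorem hcn_in_iff (c : CUR.Codes N) (B : Bxs) {a0 a1 a2 : N}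
    (h0 : ∀ t : Fin 5 → ℕ, E (CUR.tupv 4 (fun i => nu (t i))) a0 ↔ t ∈ hcnR B 0)
    (h1 : ∀ t : Fin 5 → ℕ, E (CUR.tupv 4 (fun i => nu (t i))) a1 ↔ t ∈ hcnR B 1)
    (h2 : ∀ t : Fin 5 → ℕ, E (CUR.tupv 4 (fun i => nu (t i))) a2 ↔ t ∈ hcnR B 2)
    {a b d u' : N} {x : Fin 3 → ℝ} {u : ℕ → ℕ} (ha : CUR.IsCutOf a (x 0))
    (hb : CUR.IsCutOf b (x 1)) (hd : CUR.IsCutOf d (x 2))
    (hu : ∀ k v, E (opair (nu k) (nu v)) u' ↔ u k = v) (n : ℕ) :
    hcn_in a0 a1 a2 c.lt a b d u' (nu n) ↔ B.In n x u := by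
  have e0 : ∀ j k l m : ℕ,
      E (opair (nu n : N) (opair (nu j) (opair (nu k) (opair (nu l) (nu m))))) a0 ↔
      j = B.lo n 0 ∧ k = B.hi n 0 ∧ l = B.lo n 1 ∧ m = B.hi n 1 := by
    intro j k l m
    rw [hcn_has h0]
    exact Iff.rfl
  have e1 : ∀ j k : ℕ,
      E (opair (nu n : N) (opair (nu j) (opair (nu k) (opair emp emp)))) a1 ↔
      j = B.lo n 2 ∧ k = B.hi n 2 := by
    intro j k
    have := hcn_has h1 n j k 0 0
    refine Iff.trans this ?_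
    unfold hcnR
    simp
  have e2 : ∀ j k : ℕ,
      E (opair (nu n : N) (opair (nu j) (opair (nu k) (opair emp emp)))) a2 ↔
      B.u n j k := by
    intro j k
    have := hcn_has h2 n j k 0 0
    refine Iff.trans this ?_
    unfold hcnR
    simp
  unfold hcn_in Bxs.In
  constructor
  · rintro ⟨⟨l, h, l', h', hl, hh, hl', hh', hm, hi, hi'⟩, ⟨m, k, hm1, hk1, hm2, hi2⟩, hu2⟩
    obtain ⟨l, rfl⟩ := c.std l hl
    obtain ⟨h, rfl⟩ := c.std h hh
    obtain ⟨l', rfl⟩ := c.std l' hl'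
    obtain ⟨h', rfl⟩ := c.std h' hh'
    obtain ⟨m, rfl⟩ := c.std m hm1
    obtain ⟨k, rfl⟩ := c.std k hk1
    obtain ⟨rfl, rfl, rfl, rfl⟩ := (e0 _ _ _ _).1 hm
    obtain ⟨rfl, rfl⟩ := (e1 _ _).1 hm2
    refine ⟨fun i => ?_, fun j v hj => ?_⟩
    · fin_cases i
      · exact (hcn_iv_iff c ha _ _).1 hi
      · exact (hcn_iv_iff c hb _ _).1 hi'
      · exact (hcn_iv_iff c hd _ _).1 hi2
    · exact (hu j v).1 (hu2 (nu j) (nu v) (CUR.nu_mem_om j) (CUR.nu_mem_om v) ((e2 j v).2 hj))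
  · rintro ⟨hx, hu3⟩
    refine ⟨⟨nu (B.lo n 0), nu (B.hi n 0), nu (B.lo n 1), nu (B.hi n 1), CUR.nu_mem_om _,
      CUR.nu_mem_om _, CUR.nu_mem_om _, CUR.nu_mem_om _, (e0 _ _ _ _).2 ⟨rfl, rfl, rfl, rfl⟩,
      (hcn_iv_iff c ha _ _).2 (hx 0), (hcn_iv_iff c hb _ _).2 (hx 1)⟩,
      ⟨nu (B.lo n 2), nu (B.hi n 2), CUR.nu_mem_om _, CUR.nu_mem_om _, (e1 _ _).2 ⟨rfl, rfl⟩,
      (hcn_iv_iff c hd _ _).2 (hx 2)⟩, ?_⟩
    intro k v hk hv hkv
    obtain ⟨k, rfl⟩ := c.std k hk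
    obtain ⟨v, rfl⟩ := c.std v hv
    exact (hu k v).2 (hu3 k v ((e2 k v).1 hkv))

end

theorem hcn (hba : HBAStmt) (hae : HAEStmt) (huf : HUFStmt) (hks : HKSStmt) (std : STDStmt) :
    HCNStmt := by
  intro D B hD
  obtain ⟨R1, h1⟩ := hae 3 _ (hba B)
  obtain ⟨R2, h2⟩ := huf
  refine ⟨fun i => if i % 3 = 0 then R1 (i / 3) else if i % 3 = 1 then R2 (i / 3)
    else hcnR B (i / 3), ?_⟩
  intro N _ _ hW hR c
  have hR1 : ∀ i, Has N (R1 i) := fun i => by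
    have := hR (3 * i)
    simpa using this
  have hR2 : ∀ i, Has N (R2 i) := fun i => by
    have := hR (3 * i + 1)
    have h3 : (3 * i + 1) % 3 = 1 := by omega
    have h4 : (3 * i + 1) / 3 = i := by omega
    simpa [h3, h4] using this
  have hR3 : ∀ i, Has N (hcnR B i) := fun i => by
    have := hR (3 * i + 2)
    have h3 : (3 * i + 2) % 3 = 2 := by omega
    have h4 : (3 * i + 2) / 3 = i := by omega
    simpa [h3, h4] using this
  obtain ⟨a0, ha0⟩ := hR3 0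
  obtain ⟨a1, ha1⟩ := hR3 1
  obtain ⟨a2, ha2⟩ := hR3 2
  have k1 := h1 N hW hR1
  have k2 := h2 N hW hR2
  obtain ⟨hk3, hk4⟩ := hks N c
  obtain ⟨C, hC⟩ := sep_ex (hcn_in_df a0 a1 a2 c.lt)
    (prod (prod (prod (CUR.KS c) (CUR.KS c)) (CUR.KS c)) (pow (prod om om)))
  -- the first part
  have first : ∀ (a b d u' : N) (x : Fin 3 → ℝ) (u : ℕ → ℕ), CUR.IsCutOf a (x 0) →
      CUR.IsCutOf b (x 1) → CUR.IsCutOf d (x 2) → AO.IsFunction u' om om →
      (∀ k v, PairIn (nu k) (nu v) u' ↔ u k = v) →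
      (PairIn (opair (opair a b) d) u' C ↔ ∀ n, ¬ B.In n x u) := by
    intro a b d u' x u ha hb hd hfu hu
    have hu2 : ∀ k v, E (opair (nu k : N) (nu v)) u' ↔ u k = v := fun k v => by
      rw [← hu, pairIn_iff]
    have hK : ∀ (z : N) (y : ℝ), CUR.IsCutOf z y → E z (CUR.KS c) := fun z y hz =>
      (hk4 z).2 ⟨((hk3 z y).1 hz).1, y, ((hk3 z y).1 hz).2⟩
    have hsub : Sub u' (prod om om : N) := by
      intro z hz
      obtain ⟨p, q, hp, hq, hpq⟩ := hfu.1 z hz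
      rw [isOP_iff] at hpq
      rw [hpq, mem_prod]
      exact ⟨hp, hq⟩
    rw [pairIn_iff, hC]
    constructor
    · rintro ⟨_, a', b', d', u'', he, hn⟩ n hin
      rw [opair_inj, opair_inj, opair_inj] at he
      obtain ⟨⟨⟨rfl, rfl⟩, rfl⟩, rfl⟩ := he
      exact hn (nu n) (CUR.nu_mem_om n)
        ((hcn_in_iff c B ha0 ha1 ha2 ha hb hd hu2 n).2 hin)
    · intro hn
      refine ⟨?_, a, b, d, u', rfl, ?_⟩
      · rw [mem_prod, mem_prod, mem_prod, mem_pow]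
        exact ⟨⟨⟨hK a _ ha, hK b _ hb⟩, hK d _ hd⟩, hsub⟩
      · intro n hnn hin
        obtain ⟨n, rfl⟩ := c.std n hnn
        exact hn n ((hcn_in_iff c B ha0 ha1 ha2 ha hb hd hu2 n).1 hin)
  refine ⟨C, first, ?_⟩
  intro a b d x ha hb hd
  constructor
  · intro hx
    obtain ⟨u, hu⟩ := (hD x).1 hx
    have hy := k1 ![a, b, d] (fun j => decide (u (Nat.unpair j).1 = (Nat.unpair j).2)) ?_
    · obtain ⟨y', hy', x', u'', e0, e1, e2, e3, e4⟩ := hy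
      obtain ⟨u', hfu, hpu⟩ := k2 y' hy' u'' e3
      refine ⟨u', hfu, ?_⟩
      have ha' : CUR.IsCutOf a (x' 0) := (hk3 a _).2 ⟨((hk3 a _).1 ha).1, e0⟩
      have hb' : CUR.IsCutOf b (x' 1) := (hk3 b _).2 ⟨((hk3 b _).1 hb).1, e1⟩
      have hd' : CUR.IsCutOf d (x' 2) := (hk3 d _).2 ⟨((hk3 d _).1 hd).1, e2⟩
      exact (first a b d u' x' u'' ha' hb' hd' hfu hpu).2 e4
    · refine ⟨x, u, ((hk3 a _).1 ha).2, ((hk3 b _).1 hb).2, ((hk3 d _).1 hd).2, ?_, hu⟩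
      intro k v
      show decide (u (Nat.unpair (Nat.pair k v)).1 = (Nat.unpair (Nat.pair k v)).2) = true ↔ _
      rw [Nat.unpair_pair, decide_eq_true_iff]
  · rintro ⟨u', hfu, hp⟩
    have hex : ∀ k : ℕ, ∃ v : ℕ, PairIn (nu k) (nu v) u' ∧
        ∀ y', PairIn (nu k) y' u' → y' = nu v := by
      intro k
      obtain ⟨y, hy, hyu⟩ := hfu.2 (nu k) (CUR.nu_mem_om k)
      have hy2 := pairIn_iff.1 hy
      obtain ⟨p, q, hp', hq, hpq⟩ := hfu.1 _ hy2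
      rw [isOP_iff, opair_inj] at hpq
      obtain ⟨rfl, rfl⟩ := hpq
      obtain ⟨v, rfl⟩ := c.std _ hq
      exact ⟨v, hy, hyu⟩
    choose u hu1 hu2 using hex
    refine (hD x).2 ⟨u, (first a b d u' x u ha hb hd hfu ?_).1 hp⟩
    intro k v
    constructor
    · intro h
      exact (CUR.nu_inj (hu2 k _ h)).symm
    · rintro rfl
      exact hu1 k

end AO
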