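import Pool.Agent.H74.AO.HStmts

/-!
Project AO, module HLS: least supports.
-/

set_option maxRecDepth 4000
set_option linter.unusedVariables false

namespace AO

open Classical in
theorem hls (gri : GRIStmt) (gfs : GFSStmt) (grr : GRRStmt) : HLSStmt := by
  intro Z g
  have hg : g ∈ GV Z Set.univ := by rw [(grr Z).2]; trivial
  obtain ⟨F0, _, hF0⟩ := gfs Z Set.univ g hg
  have hex : ∃ n : ℕ, ∃ F : Finset Vx, F.card = n ∧ g ∈ GV Z ↑F := ⟨_, F0, rfl, hF0⟩
  obtain ⟨F, hc, hF⟩ := Nat.find_spec hex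
  refine ⟨F, hF, fun W hW => ?_⟩
  have h1 : g ∈ GV Z (↑F ∩ W) := by
    rw [← gri Z ↑F W]
    exact ⟨hF, hW⟩
  have h2 : ((F.filter (fun v => v ∈ W) : Finset Vx) : Set Vx) = ↑F ∩ W := by
    ext v
    simp
  rw [← h2] at h1
  have h3 : Nat.find hex ≤ (F.filter (fun v => v ∈ W)).card := Nat.find_min' hex ⟨_, rfl, h1⟩
  rw [← hc] at h3
  have h4 : F.filter (fun v => v ∈ W) = F :=
    Finset.eq_of_subset_of_card_le (Finset.filter_subset _ _) h3
  intro v hv
  rw [← h4] at hv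
  have := Finset.mem_filter.1 (Finset.mem_coe.1 hv)
  exact this.2

end AO
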