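import Pool.Agent.H98.AO.GStmts
import Pool.Agent.H93.MA.CBT
import Pool.Agent.H35.MA.ACF
import Pool.Agent.H13.MA.Real
import Pool.Agent.H78.CUR.NU

/-!
Project AO, module NFE: the group is not free.
-/

set_option maxRecDepth 8000
set_option linter.unusedVariables false
set_option linter.unusedSectionVars false
set_option synthInstance.maxSize 100000

namespace AO

open SW

theorem nfe_df1 {N : Type} [SetStr N] {f : N → N → N → N}
    (hf : DfT (fun v : Fin 3 → N => f (v 0) (v 1) (v 2))) (a : N) :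
    Fn2 (fun x y => f a x y) :=
  DfT.comp3 hf (inferInstance : DfT (fun _ : Fin 2 → N => a)) inferInstance inferInstance

theorem nfe_df2 {N : Type} [SetStr N] {f : N → N → N → N}
    (hf : DfT (fun v : Fin 3 → N => f (v 0) (v 1) (v 2))) (a b : N) :
    Fn1 (fun x => f a b x) :=
  DfT.comp3 hf (inferInstance : DfT (fun _ : Fin 1 → N => a)) inferInstance inferInstance

theorem nfe_df3 {N : Type} [SetStr N] {f : N → N → N → N}
    (hf : DfT (fun v : Fin 3 → N => f (v 0) (v 1) (v 2))) (a c : N) {g : N → N} (hg : Fn1 g) :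
    Fn1 (fun x => f a (g x) c) :=
  DfT.comp3 hf (inferInstance : DfT (fun _ : Fin 1 → N => a)) hg inferInstance

section
variable {N : Type} [SetStr N] [ZF N]

/-- the members of the supports of the values of a function -/
theorem nfe_cnt (hcb : CbFacts N) (K s : N) (g : N → N) (hg : Fn1 g)
    (hs : ∀ a, E a K → Fnt (app s a)) (X : N)
    (hX : ∀ b, E b X → ∃ k, E k om ∧ E (g k) K ∧ E b (app s (g k))) : Cb X := by
  have i1 : ∀ {n : ℕ} {t : (Fin n → N) → N} [DfT t], DfT (fun v => g (t v)) :=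
    fun {n t} ht => DfT.comp1 hg ht
  have hF : Fn1 (fun k : N => sep (app s (g k)) (fun _ => E (g k) K)) := by
    infer_instance
  refine hcb.sub (hcb.iUn (fun k : N => sep (app s (g k)) (fun _ => E (g k) K)) hF hcb.om
    fun k hk => ?_) (fun b hb => ?_)
  · by_cases h : E (g k) K
    · exact hcb.sub (hcb.fin (hs _ h)) (fun z hz => (mem_sep.1 hz).1)
    · exact hcb.sub (hcb.fin (finF.emp)) (fun z hz => absurd (mem_sep.1 hz).2 h)
  · obtain ⟨k, hk, h1, h2⟩ := hX b hb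
    rw [mem_sUn]
    exact ⟨_, (mem_img' hF).2 ⟨k, hk, rfl⟩, mem_sep.2 ⟨h2, h1⟩⟩

/-- a set which is the image of a relation with unique values on a countable set -/
theorem nfe_img (hcb : CbFacts N) (X C : N) (R : N → N → Prop) (hR : Cl2 R) (hC : Cb C)
    (h1 : ∀ n, E n X → ∃ a, E a C ∧ R a n)
    (h2 : ∀ n n' a, E n X → E n' X → R a n → R a n' → n = n') : Cb X := by
  have i1 : ∀ {n : ℕ} {t s : (Fin n → N) → N} [DfT t] [DfT s], Df (fun v => R (t v) (s v)) :=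
    fun {n t s} ht hs => Df.comp2 hR ht hs
  have hF : Fn1 (fun a : N => the (fun n => E n X ∧ R a n)) := by infer_instance
  refine hcb.sub (hcb.img (fun a : N => the (fun n => E n X ∧ R a n)) hF hC) (fun n hn => ?_)
  obtain ⟨a, ha, haR⟩ := h1 n hn
  refine (mem_img' hF).2 ⟨a, ha, ?_⟩
  exact (the_eq (p := fun n => E n X ∧ R a n) ⟨hn, haR⟩
    (fun z hz => h2 z n a hz.1 hn hz.2 haR)).symm

/-- the set of the members of supports -/
theorem nfe_B0 (K s B D : N) (g : N → N → N) (hg : Fn2 g) (w : N) : ∃ B0 : N, ∀ b, E b B0 ↔ E b B ∧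
    ∃ n k, E n D ∧ E k om ∧ E (g (app w n) k) K ∧ E b (app s (g (app w n) k)) := by
  have i1 : ∀ {n : ℕ} {t s : (Fin n → N) → N} [DfT t] [DfT s], DfT (fun v => g (t v) (s v)) :=
    fun {n t s} ht hs => DfT.comp2 hg ht hs
  have hC : Cl (fun b : N => ∃ n k, E n D ∧ E k om ∧ E (g (app w n) k) K ∧
      E b (app s (g (app w n) k))) := by infer_instance
  exact sep_ex hC B

/-- the set of the members of supports -/
theorem nfe_B1 (K s B : N) (g : N → N) (hg : Fn1 g) : ∃ B1 : N, ∀ b, E b B1 ↔ E b B ∧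
    ∃ k, E k om ∧ E (g k) K ∧ E b (app s (g k)) := by
  have i1 : ∀ {n : ℕ} {t : (Fin n → N) → N} [DfT t], DfT (fun v => g (t v)) :=
    fun {n t} ht => DfT.comp1 hg ht
  have hC : Cl (fun b : N => ∃ k, E k om ∧ E (g k) K ∧ E b (app s (g k))) := by infer_instance
  exact sep_ex hC B

theorem nfe_R (Y m : N) (g : N → N) (hg : Fn1 g) : Cl2 (fun a n : N => ∃ p, E p Y ∧
    E (opair (opair p a) (g n)) m) := by
  have i1 : ∀ {n : ℕ} {t : (Fin n → N) → N} [DfT t], DfT (fun v => g (t v)) :=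
    fun {n t} ht => DfT.comp1 hg ht
  infer_instance

end

theorem nfe (gen : GENStmt) (ncl : NCLStmt) (fsu : FSUStmt) (nfd : NFDStmt) (nfp : NFPStmt)
    (ghm : GHMStmt) (vox : VOXStmt) (gpi : GPIStmt) : NFEStmt := by
  intro N _ _ hS c m L h hGD l T y w B hbad hB
  have hcb : CbFacts N := ma_cbt ma_acf N
  obtain ⟨hKm, hh⟩ := ghm N c m L h hGD
  obtain ⟨gx, hgxd, hgx⟩ := hGD.gx
  obtain ⟨gt, hgtd, hgt⟩ := hGD.gt
  obtain ⟨vs, hvsd, hvs⟩ := hGD.vs
  obtain ⟨gi, hrep⟩ := gpi N (CUR.KS c) m hKm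
  obtain ⟨φ, hφ, hφh⟩ := hh (CUR.KS c) (fun x hx => hx) hKm hrep
  obtain ⟨hBK, hFB⟩ := hB
  have hFB : FB (EX (CUR.KS c) B) ⊤ := hFB hrep
  obtain ⟨s, hs⟩ := fsu N hS (CUR.KS c) m B hKm hrep hFB.2
  have hV := vox N hS
  -- the vertex
  obtain ⟨d, hd, hdu, hdn⟩ := nfd N l T y w s (CUR.KS c) B (fun a b => gx (sing emp) a b) vs hbad
    (nfe_df1 hgxd _) hvsd hBK (fun a ha => ⟨(hs a ha).1, (hs a ha).2.1⟩) (fun a ha => (hvs a ha).1)
  have hyd : Sub (app y d) om := hbad.ry d hd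
  have hnl : ∀ n, E n (nb T d) → E n l := fun n hn => hbad.ord.1 d hd n (mem_nb.1 hn).1
  have hwn : ∀ n, E n (nb T d) → Sub (app w n) om := fun n hn => hbad.rw n (hnl n hn)
  -- the two parts of the basis
  obtain ⟨B0, hB0⟩ := nfe_B0 (CUR.KS c) s B (nb T d) (fun a b => gx (sing emp) a b)
    (nfe_df1 hgxd _) w
  obtain ⟨B1, hB1⟩ := nfe_B1 (CUR.KS c) s B (fun k => gx emp (app y d) k) (nfe_df2 hgxd _ _)
  have hB1c : Cb B1 := nfe_cnt hcb (CUR.KS c) s (fun k => gx emp (app y d) k)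
    (nfe_df2 hgxd _ _) (fun a ha => (hs a ha).1) B1 (fun b hb => ((hB1 b).1 hb).2)
  -- names of reals
  have hrx : ∀ W' : Rl, ∃ r : N, Sub r om ∧ ((∃ x : N, Sub x om ∧ rb x = W') → rb r = W') := by
    intro W'
    by_cases hx : ∃ x : N, Sub x om ∧ rb x = W'
    · obtain ⟨x, h1, h2⟩ := hx
      exact ⟨x, h1, fun _ => h2⟩
    · exact ⟨emp, fun z hz => absurd hz (not_mem_emp z), fun h => absurd h hx⟩
  choose r hr1 hr2 using hrx
  have hrw : ∀ n, E n (nb T d) → r (rb (app w n)) = app w n := fun n hn =>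
    hV.inj _ _ (hr1 _) (hwn n hn) (hr2 _ ⟨_, hwn n hn, rfl⟩)
  obtain ⟨hA, hU⟩ := nfp ZZ (rb (app y d)) {x : N // E x (CUR.KS c)} φ (EX (CUR.KS c) B)
    (EX (CUR.KS c) B0) (EX (CUR.KS c) B1) {W' | ∃ n, E n (nb T d) ∧ rb (app w n) = W'}
    (fun W' k => ⟨gt (app y d) (r W') (nu k), (hgt _ _ hyd (hr1 W') k).1⟩)
    (fun s' => ⟨gx emp (app y d) (nu (sc s')), ((hgx _ hyd s').1).1⟩)
    (fun W' s' => ⟨gx (sing emp) (r W') (nu (sc s')), ((hgx _ (hr1 W') s').2).1⟩)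
    hφ hFB (fun b hb => ((hB0 b.1).1 hb).1) (fun b hb => ((hB1 b.1).1 hb).1)
    (by
      intro b hb
      obtain ⟨hbB, n, k, hn, hk, hg, hbs⟩ := (hB0 b.1).1 hb
      refine ⟨VX (vs b.1), ?_, ?_⟩
      · rw [hV.mem (vs b.1) (app y d) false hyd]
        exact hdn n k b.1 hn hk hg hbs
      · rw [hφh]
        exact (hvs b.1 b.2).2.2)
    (by
      rintro W' ⟨n, hn, rfl⟩
      exact hbad.ed d n hd hn)
    (by
      rintro W' ⟨n, hn, rfl⟩ k
      rw [hφh]
      show h (gt (app y d) (r (rb (app w n))) (nu k)) = _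
      rw [hrw n hn]
      exact (hgt _ _ hyd (hwn n hn) k).2)
    (by
      intro s'
      rw [hφh]
      exact ((hgx _ hyd s').1).2)
    (by
      rintro W' ⟨n, hn, rfl⟩ s'
      rw [hφh]
      show h (gx (sing emp) (r (rb (app w n))) (nu (sc s'))) = _
      rw [hrw n hn]
      exact ((hgx _ (hwn n hn) s').2).2)
    (by
      intro s'
      have h1 := hs (gx emp (app y d) (nu (sc s'))) ((hgx _ hyd s').1).1
      refine Subgroup.closure_mono ?_ h1.2.2
      intro b hb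
      exact (hB1 b.1).2 ⟨h1.2.1 _ hb, nu (sc s'), CUR.nu_mem_om _, ((hgx _ hyd s').1).1, hb⟩)
    (by
      rintro W' ⟨n, hn, rfl⟩ s'
      have h1 := hs (gx (sing emp) (r (rb (app w n))) (nu (sc s'))) ((hgx _ (hr1 _) s').2).1
      refine Subgroup.closure_mono ?_ h1.2.2
      intro b hb
      refine (hB0 b.1).2 ⟨h1.2.1 _ hb, n, nu (sc s'), hn, CUR.nu_mem_om _, ?_, ?_⟩
      · exact ((hgx _ (hwn n hn) s').2).1
      · have hb' : E b.1 (app s (gx (sing emp) (r (rb (app w n))) (nu (sc s')))) := hb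
        rw [hrw n hn] at hb'
        exact hb')
  -- the set of neighbours is countable
  apply hdu
  obtain ⟨cl, hcl, hclm, hclc⟩ := gen N hS (CUR.KS c) m hrep
  obtain ⟨Y, hY⟩ := ncl N hS (CUR.KS c) m hrep B0
  have hg0 : Fn1 (fun n : N => gt (app y d) (app w n) emp) :=
    nfe_df3 hgtd _ _ (inferInstance : Fn1 (fun n : N => app w n))
  refine nfe_img hcb (nb T d) (cl B1) _ (nfe_R Y m (fun n => gt (app y d) (app w n) emp) hg0)
    (hclc B1 hB1c) ?_ ?_
  · intro n hn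
    obtain ⟨a, ha, han⟩ := hA _ ⟨n, hn, rfl⟩
    refine ⟨a.1, (hclm B1 a.1).2 ⟨a.2, ha⟩, _, (hY _).2 ⟨_, han⟩, ?_⟩
    rw [← trp_iff]
    have h1 := (hrep _ a _).2 (inv_mul_cancel_right
      (⟨gt (app y d) (r (rb (app w n))) (nu 0), (hgt _ _ hyd (hr1 _) 0).1⟩ :
        {x : N // E x (CUR.KS c)}) a)
    have h2 : gt (app y d) (r (rb (app w n))) (nu 0) = gt (app y d) (app w n) emp := by
      rw [hrw n hn]; rfl
    rw [← h2]
    exact h1
  · rintro n n' a hn hn' ⟨p, hp, hpm⟩ ⟨p', hp', hpm'⟩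
    obtain ⟨hpK, hpn⟩ := (hY p).1 hp
    obtain ⟨hpK', hpn'⟩ := (hY p').1 hp'
    have haK : E a (CUR.KS c) := by
      obtain ⟨x1, x2, x3, _, h2, _, he, _⟩ := (hGD.mem _).1 hpm
      rw [opair_inj, opair_inj] at he
      rw [he.1.2]
      exact h2
    have key : ∀ n, E n (nb T d) → ∀ p (hpK : E p (CUR.KS c)),
        (⟨p, hpK⟩ : {x : N // E x (CUR.KS c)}) ∈ Subgroup.normalClosure (EX (CUR.KS c) B0) →
        E (opair (opair p a) (gt (app y d) (app w n) emp)) m →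
        (⟨gt (app y d) (r (rb (app w n))) (nu 0), (hgt _ _ hyd (hr1 _) 0).1⟩ :
          {x : N // E x (CUR.KS c)}) * (⟨a, haK⟩ : {x : N // E x (CUR.KS c)})⁻¹ ∈
          Subgroup.normalClosure (EX (CUR.KS c) B0) := by
      intro n hn p hpK hpn hpm
      have h2 : gt (app y d) (r (rb (app w n))) (nu 0) = gt (app y d) (app w n) emp := by
        rw [hrw n hn]; rfl
      rw [← h2, ← trp_iff] at hpm
      have h1 := (hrep ⟨p, hpK⟩ ⟨a, haK⟩ ⟨gt (app y d) (r (rb (app w n))) (nu 0),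
        (hgt _ _ hyd (hr1 _) 0).1⟩).1 hpm
      rw [← h1, mul_inv_cancel_right]
      exact hpn
    have h3 := hU _ ⟨n, hn, rfl⟩ _ ⟨n', hn', rfl⟩ ⟨a, haK⟩ (key n hn p hpK hpn hpm)
      (key n' hn' p' hpK' hpn' hpm')
    exact hbad.iw n n' (hnl n hn) (hnl n' hn') (hV.inj _ _ (hwn n hn) (hwn n' hn') h3)

end AO
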