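import Pool.Agent.H98.AO.Grp

/-!
Project AO, module NFP: the counting argument.
-/

set_option maxRecDepth 4000

namespace AO

theorem nfp (hR : GRRStmt) (h1 : NF1Stmt) (h2 : NF2Stmt) : NFPStmt := by
  intro Z y G _ φ B B0 B1 W t x z hφ hB hB0 hB1 hv hW ht hx hz hx1 hz0
  constructor
  · intro w hw
    have hrel := (hR Z).1.rel
    refine h1 G B B0 B1 (t w) (fun n => x (str w (n + 1))) (fun n => z w (str y (n + 1))) hB
      hB0 hB1 ?_ ?_ ?_
    · intro n
      apply hφ
      rw [ht w hw n, map_mul, map_mul, map_pow, ht w hw (n + 1), hx, hz w hw]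
      exact hrel y w n trivial trivial (hW w hw)
    · intro n
      exact Subgroup.closure_mono Set.subset_union_right (hx1 _)
    · intro n
      exact hz0 w hw _
  · intro w hw w' hw' a ha ha'
    obtain ⟨K, hK, f, hf1, hf2⟩ := h2 Z y
    apply hf2 w w' (hW w hw) (hW w' hw')
    have hk : Subgroup.normalClosure B0 ≤ (f.comp φ).ker := by
      apply Subgroup.normalClosure_le_normal
      intro b hb
      obtain ⟨V, hV, hbV⟩ := hv b hb
      exact hf1 V hV _ hbV
    have e1 : f (φ (t w 0)) = f (φ a) := by
      have := hk ha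
      rw [MonoidHom.mem_ker, map_mul, map_inv, mul_inv_eq_one] at this
      exact this
    have e2 : f (φ (t w' 0)) = f (φ a) := by
      have := hk ha'
      rw [MonoidHom.mem_ker, map_mul, map_inv, mul_inv_eq_one] at this
      exact this
    rw [← ht w hw 0, ← ht w' hw' 0, e1, e2]

end AO
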